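import Pool.Agent.Run7.h202.RP.Stm

/-!
# Piece COD of the project RP: codegrees of sparse random graphs
-/

set_option autoImplicit false

namespace Pool.Agent.Run7.h404.RP

open Finset Filter Pool.Agent.H234RC Pool.Agent.TH953.RC Pool.Agent.Y395.RS Pool.Agent.Y395.RW
  Pool.Agent.Run7.h202.RP

/-- prescribed edges -/
theorem pr_sub {α : Type} [DecidableEq α] (p : ℝ) (h0 : 0 ≤ p) (h1 : p ≤ 1) (E A : Finset α)
    (hA : A ⊆ E) : pr (fun _ => p) E (fun F => A ⊆ F) ≤ p ^ A.card := by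
  classical
  refine pr_cond (fun _ => h0) (fun _ => h1) E A hA _ _ fun F0 hF0 => ?_
  have h2 : pr (fun _ => p) A (fun B => A ⊆ F0 ∪ B) ≤
      ∑ B ∈ ({A} : Finset (Finset α)), wt (fun _ => p) A B := by
    unfold pr
    apply sum_le_sum_of_subset_of_nonneg
    · intro B hB
      simp only [mem_filter, mem_powerset] at hB
      rw [mem_singleton]
      refine subset_antisymm hB.1 fun x hx => ?_
      rcases mem_union.1 (hB.2 hx) with h | h
      · exact absurd hx (mem_sdiff.1 (hF0 h)).2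
      · exact h
    · intro B _ _
      exact wt_nonneg (fun _ => h0) (fun _ => h1) A B
  refine h2.trans (le_of_eq ?_)
  rw [sum_singleton]
  unfold wt
  rw [Finset.sdiff_self, prod_empty, mul_one, prod_const]

/-- the pairs between `x, y` and `Z` -/
def Aset {V : Type} [DecidableEq V] (x y : V) (Z : Finset V) : Finset (Sym2 V) :=
  Z.image (fun z => s(x, z)) ∪ Z.image (fun z => s(y, z))

theorem Aset_card {V : Type} [DecidableEq V] (x y : V) (Z : Finset V) (hxy : x ≠ y)
    (hy : y ∉ Z) : (Aset x y Z).card = 2 * Z.card := by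
  unfold Aset
  rw [card_union_of_disjoint, card_image_of_injective, card_image_of_injective]
  · ring
  · intro a b h
    exact Sym2.congr_right.1 h
  · intro a b h
    exact Sym2.congr_right.1 h
  · rw [disjoint_left]
    intro e he he'
    obtain ⟨z, hz, rfl⟩ := mem_image.1 he
    obtain ⟨w, hw, h⟩ := mem_image.1 he'
    rcases Sym2.eq_iff.1 h with ⟨h1, -⟩ | ⟨h1, -⟩
    · exact hxy h1.symm
    · rw [h1] at hy
      exact hy hz

theorem Aset_sub {V : Type} [Fintype V] [DecidableEq V] (x y : V) (Z : Finset V) (hx : x ∉ Z)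
    (hy : y ∉ Z) : Aset x y Z ⊆ pairs V := by
  intro e he
  rcases mem_union.1 he with h | h
  · obtain ⟨z, hz, rfl⟩ := mem_image.1 h
    rw [mem_pairs]
    rintro rfl
    exact hx hz
  · obtain ⟨z, hz, rfl⟩ := mem_image.1 h
    rw [mem_pairs]
    rintro rfl
    exact hy hz

theorem cod_bound (V : Type) [Fintype V] [DecidableEq V] (p : ℝ) (h0 : 0 ≤ p) (h1 : p ≤ 1) :
    P (V := V) p (fun F => ∃ x y, x ≠ y ∧ 12 ≤ cod F x y) ≤
      (Fintype.card V : ℝ) ^ 14 * p ^ 24 := by
  classical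
  set I : Finset (V × V × Finset V) := univ ×ˢ univ ×ˢ (univ.powersetCard 12) with hI
  have hcard : (I.card : ℝ) ≤ (Fintype.card V : ℝ) ^ 14 := by
    rw [hI, card_product, card_product, card_powersetCard, card_univ]
    have h2 : (Fintype.card V).choose 12 ≤ (Fintype.card V) ^ 12 := Nat.choose_le_pow _ _
    have h3 : Fintype.card V * (Fintype.card V * (Fintype.card V).choose 12) ≤
        (Fintype.card V) ^ 14 := by
      calc Fintype.card V * (Fintype.card V * (Fintype.card V).choose 12)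
          ≤ Fintype.card V * (Fintype.card V * (Fintype.card V) ^ 12) := by gcongr
        _ = (Fintype.card V) ^ 14 := by ring
    exact_mod_cast h3
  unfold P
  refine (pr_mono (fun _ => h0) (fun _ => h1) (Q := fun F => ∃ i ∈ I,
    (i.1 ≠ i.2.1 ∧ i.1 ∉ i.2.2 ∧ i.2.1 ∉ i.2.2) ∧ Aset i.1 i.2.1 i.2.2 ⊆ F) ?_).trans
    ((pr_ex (fun _ => h0) (fun _ => h1) _ I _).trans ?_)
  · rintro F hF ⟨x, y, hxy, h⟩
    unfold cod at h
    obtain ⟨Z, hZ, hZc⟩ := exists_subset_card_eq h
    refine ⟨(x, y, Z), ?_, ⟨hxy, ?_, ?_⟩, ?_⟩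
    · rw [hI, mem_product, mem_product, mem_powersetCard]
      exact ⟨mem_univ _, mem_univ _, subset_univ _, hZc⟩
    · intro hx
      exact (mem_filter.1 (hZ hx)).2.1.ne rfl
    · intro hy
      exact (mem_filter.1 (hZ hy)).2.2.ne rfl
    · intro e he
      rcases mem_union.1 he with h' | h'
      · obtain ⟨z, hz, rfl⟩ := mem_image.1 h'
        exact (adj_pairs hF _ _).1 (mem_filter.1 (hZ hz)).2.1
      · obtain ⟨z, hz, rfl⟩ := mem_image.1 h'
        exact (adj_pairs hF _ _).1 (mem_filter.1 (hZ hz)).2.2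
  · have hterm : ∀ i ∈ I, pr (fun _ => p) (pairs V)
        (fun F => (i.1 ≠ i.2.1 ∧ i.1 ∉ i.2.2 ∧ i.2.1 ∉ i.2.2) ∧ Aset i.1 i.2.1 i.2.2 ⊆ F) ≤
        p ^ 24 := by
      intro i hi
      rw [hI, mem_product, mem_product, mem_powersetCard] at hi
      by_cases hc : i.1 ≠ i.2.1 ∧ i.1 ∉ i.2.2 ∧ i.2.1 ∉ i.2.2
      · refine (pr_mono (fun _ => h0) (fun _ => h1) (Q := fun F => Aset i.1 i.2.1 i.2.2 ⊆ F)
          fun F _ h => h.2).trans ?_
        refine (pr_sub p h0 h1 _ _ (Aset_sub _ _ _ hc.2.1 hc.2.2)).trans (le_of_eq ?_)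
        rw [Aset_card _ _ _ hc.1 hc.2.2, hi.2.2.2]
      · refine (pr_mono (fun _ => h0) (fun _ => h1) (Q := fun _ => False)
          fun F _ h => hc h.1).trans ?_
        rw [pr_false]
        positivity
    refine (sum_le_sum hterm).trans ?_
    rw [sum_const, nsmul_eq_mul]
    exact mul_le_mul_of_nonneg_right hcard (by positivity)

theorem t_COD : COD := by
  have hlim : ∀ᶠ n : ℕ in atTop, (Real.log n) ^ 24 ≤ (1 / 400 ^ 24 : ℝ) * n := by
    have h1 := (Asymptotics.isLittleO_iff.1 (Real.isLittleO_pow_log_id_atTop (n := 24)))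
      (show (0 : ℝ) < 1 / 400 ^ 24 by positivity)
    have h2 := tendsto_natCast_atTop_atTop.eventually h1
    filter_upwards [h2] with n hn
    have h3 := le_trans (le_abs_self _) hn
    simpa using h3
  filter_upwards [hlim, eventually_ge_atTop 3] with n hn hn3 V _ _ p hV hp
  have hn0 : (0 : ℝ) < n := by exact_mod_cast (by omega : 0 < n)
  have hlog : 0 ≤ Real.log n := Real.log_nonneg (by exact_mod_cast (by omega : 1 ≤ n))
  have hb : (400 * Real.log n) ^ 24 ≤ (n : ℝ) := by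
    rw [mul_pow]
    have h7 : (400 : ℝ) ^ 24 * Real.log n ^ 24 ≤ 400 ^ 24 * ((1 / 400 ^ 24 : ℝ) * n) := by gcongr
    refine h7.trans (le_of_eq ?_)
    field_simp
  have h0 : 0 ≤ p := le_trans (by positivity) hp.1
  have hn1 : (1 : ℝ) ≤ n := by exact_mod_cast (by omega : 1 ≤ n)
  have h1 : p ≤ 1 := by
    refine hp.2.trans ?_
    rw [div_le_one hn0]
    have h5 : (400 * Real.log n) ^ 24 ≤ (n : ℝ) ^ 24 :=
      hb.trans (le_self_pow₀ hn1 (by norm_num))
    exact le_of_pow_le_pow_left₀ (by norm_num) hn0.le h5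
  refine (cod_bound V p h0 h1).trans ?_
  rw [hV]
  have h6 : p ^ 24 ≤ (400 * Real.log n / n) ^ 24 := pow_le_pow_left₀ h0 hp.2 24
  calc (n : ℝ) ^ 14 * p ^ 24 ≤ (n : ℝ) ^ 14 * (400 * Real.log n / n) ^ 24 := by gcongr
    _ = (400 * Real.log n) ^ 24 / (n : ℝ) ^ 10 := by
        rw [div_pow]
        field_simp
    _ ≤ (n : ℝ) / (n : ℝ) ^ 10 := by gcongr
    _ ≤ (n : ℝ) ^ 2 / (n : ℝ) ^ 10 := by
        gcongr
        exact le_self_pow₀ hn1 (by norm_num)
    _ = 1 / (n : ℝ) ^ 8 := by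
        field_simp

end Pool.Agent.Run7.h404.RP
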