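import Pool.Agent.Run7.h202.RP.Stm

/-!
# Piece DLIGHT of the project RP: fewer than half of the vertices are light
-/

set_option autoImplicit false

namespace Pool.Agent.Run7.h404.RP

open Finset Filter Pool.Agent.H234RC Pool.Agent.TH953.RC Pool.Agent.Y395.RS Pool.Agent.Y395.RW
  Pool.Agent.Run7.h202.RP

theorem eBt_le {V : Type} [Fintype V] [DecidableEq V] (F : Finset (Sym2 V)) (hF : F ⊆ pairs V)
    (S W : Finset V) : eBt F S W ≤ ∑ x ∈ S, Pool.Agent.Run7.h202.RP.dg F x := by
  classical
  have h1 : eBt F S W = ((S ×ˢ W).filter (fun q => s(q.1, q.2) ∈ F)).card := by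
    unfold eBt
    congr
  rw [h1, card_eq_sum_card_fiberwise (f := fun q : V × V => q.1) (t := S)]
  · refine sum_le_sum fun x _ => ?_
    unfold Pool.Agent.Run7.h202.RP.dg
    refine card_le_card_of_injOn (fun q => q.2) ?_ ?_
    · intro q hq
      rw [mem_coe, mem_filter, mem_filter] at hq
      rw [mem_coe, mem_nb, adj_pairs hF]
      refine ⟨mem_univ _, ?_⟩
      rw [← hq.2]
      exact hq.1.2
    · intro a ha b hb h
      rw [mem_coe, mem_filter, mem_filter] at ha hb
      exact Prod.ext (ha.2.trans hb.2.symm) h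
  · intro q hq
    rw [mem_coe, mem_filter, mem_product] at hq
    exact hq.1.1

theorem t_DLIGHT : DLIGHT := by
  filter_upwards [eventually_ge_atTop 20] with n hn V _ _ p F hV hp hF hB L hL
  by_contra hc
  push Not at hc
  have hn0 : (0 : ℝ) < n := by exact_mod_cast (by omega : 0 < n)
  have hlog : 0 < Real.log n := Real.log_pos (by exact_mod_cast (by omega : 1 < n))
  obtain ⟨S, hSL, hS⟩ := exists_subset_card_eq (s := L) (n := (n + 3) / 4) (by omega)
  have hW : (univ \ S).card = n - (n + 3) / 4 := by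
    rw [card_sdiff_of_subset (subset_univ _), card_univ, hV, hS]
  have hWr : (n : ℝ) / 2 ≤ ((univ \ S).card : ℝ) := by
    have h1 : n ≤ 2 * (univ \ S).card := by omega
    have h2 : (n : ℝ) ≤ 2 * ((univ \ S).card : ℝ) := by exact_mod_cast h1
    linarith
  have hSr : (n : ℝ) / 4 ≤ (S.card : ℝ) := by
    have h1 : n ≤ 4 * S.card := by omega
    have h2 : (n : ℝ) ≤ 4 * (S.card : ℝ) := by exact_mod_cast h1
    linarith
  have h1 := hB S (univ \ S) disjoint_sdiff (by rw [hV]; linarith) (by rw [hV]; linarith)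
  have h2 : (eBt F S (univ \ S) : ℝ) ≤ ∑ x ∈ S, (Pool.Agent.Run7.h202.RP.dg F x : ℝ) := by
    exact_mod_cast eBt_le F hF S (univ \ S)
  have h3 : ∑ x ∈ S, (Pool.Agent.Run7.h202.RP.dg F x : ℝ) ≤ ∑ _x ∈ S, Real.log n / 1000 := by
    refine sum_le_sum fun x hx => ?_
    have := hL x (hSL hx)
    unfold Light at this
    rw [hV] at this
    exact this.le
  rw [sum_const, nsmul_eq_mul] at h3
  have hSpos : (0 : ℝ) < S.card := by linarith
  have h4 : Real.log n / (8 * n) * S.card * (n / 2) / 2 ≤
      p * S.card * (univ \ S).card / 2 := by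
    have := hp.1
    have h5 : 0 ≤ Real.log n / (8 * n) := by positivity
    have h9 : 0 ≤ p := h5.trans this
    gcongr
  have h6 : Real.log n / (8 * n) * S.card * (n / 2) / 2 = Real.log n / 32 * S.card := by
    field_simp
    ring
  have h7 : Real.log n / 32 * S.card ≤ S.card * (Real.log n / 1000) := by
    rw [← h6]
    exact h4.trans (h1.trans (h2.trans h3))
  have h8 : 0 < Real.log n * S.card := mul_pos hlog hSpos
  nlinarith

end Pool.Agent.Run7.h404.RP
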