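import Pool.Agent.Run7.h202.RP.Stm
import Pool.Agent.Run7.h404.RP.COD

/-!
# Piece ISO of the project RP: isolated vertices
-/

set_option autoImplicit false

namespace Pool.Agent.Run7.h404.RP

open Finset Filter Pool.Agent.H234RC Pool.Agent.TH953.RC Pool.Agent.Y395.RS Pool.Agent.Y395.RW
  Pool.Agent.Run7.h202.RP

theorem pr_if {α : Type} [DecidableEq α] (p : α → ℝ) (E : Finset α) (R : Finset α → Prop)
    [DecidablePred R] : pr p E R = ∑ F ∈ E.powerset, (if R F then wt p E F else 0) := by
  unfold pr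
  rw [sum_filter]
  exact sum_congr rfl fun F _ => by congr

section gen

variable {α : Type} [DecidableEq α] (p : ℝ) (h0 : 0 ≤ p) (h1 : p ≤ 1)

include h0 h1

/-- a nonempty trace -/
theorem pr_ne (T : Finset α) :
    pr (fun _ => p) T (fun B => B.Nonempty) ≤ 1 - (1 - p) ^ T.card := by
  classical
  have e1 : pr (fun _ => p) T (fun _ => True) = 1 := pr_true T
  have e2 : pr (fun _ => p) T (fun B => B.Nonempty) + pr (fun _ => p) T (fun B => ¬ B.Nonempty) =
      pr (fun _ => p) T (fun _ => True) := by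
    rw [pr_if, pr_if, pr_if, ← sum_add_distrib]
    refine sum_congr rfl fun F _ => ?_
    by_cases h : F.Nonempty <;> simp [h]
  have e3 : (1 - p) ^ T.card ≤ pr (fun _ => p) T (fun B => ¬ B.Nonempty) := by
    have h2 : (1 - p) ^ T.card = ∑ B ∈ ({∅} : Finset (Finset α)), wt (fun _ => p) T B := by
      rw [sum_singleton]
      unfold wt
      simp
    rw [h2]
    unfold pr
    apply sum_le_sum_of_subset_of_nonneg
    · intro B hB
      rw [mem_singleton] at hB
      subst hB
      simp
    · intro B _ _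
      exact wt_nonneg (fun _ => h0) (fun _ => h1) T B
  linarith

/-- disjoint sets which are all met -/
theorem pr_all {ι : Type} [DecidableEq ι] (T : ι → Finset α) (I : Finset ι) :
    ∀ E : Finset α, (∀ i ∈ I, T i ⊆ E) → (∀ i ∈ I, ∀ j ∈ I, i ≠ j → Disjoint (T i) (T j)) →
      pr (fun _ => p) E (fun F => ∀ i ∈ I, (F ∩ T i).Nonempty) ≤
        ∏ i ∈ I, (1 - (1 - p) ^ (T i).card) := by
  classical
  induction I using Finset.induction_on with
  | empty =>
    intro E _ _
    rw [prod_empty]
    exact pr_le_one (fun _ => h0) (fun _ => h1) E _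
  | insert a I ha ih =>
    intro E hE hd
    have haE : T a ⊆ E := hE a (mem_insert_self a I)
    have hne : ∀ i ∈ I, i ≠ a := fun i hi h => ha (h ▸ hi)
    have hda : ∀ i ∈ I, Disjoint (T i) (T a) := fun i hi =>
      hd i (mem_insert_of_mem hi) a (mem_insert_self a I) (hne i hi)
    have hE' : ∀ i ∈ I, T i ⊆ E \ T a := fun i hi =>
      subset_sdiff.2 ⟨hE i (mem_insert_of_mem hi), hda i hi⟩
    have hih := ih (E \ T a) hE' (fun i hi j hj => hd i (mem_insert_of_mem hi) j
      (mem_insert_of_mem hj))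
    have hρ : 0 ≤ 1 - (1 - p) ^ (T a).card := by
      have : (1 - p) ^ (T a).card ≤ 1 := pow_le_one₀ (by linarith) (by linarith)
      linarith
    rw [pr_split E (T a) haE, prod_insert ha]
    have hterm : ∀ F0 ∈ (E \ T a).powerset,
        wt (fun _ => p) (E \ T a) F0 * pr (fun _ => p) (T a)
          (fun A => ∀ i ∈ insert a I, ((F0 ∪ A) ∩ T i).Nonempty) ≤
        (if (∀ i ∈ I, (F0 ∩ T i).Nonempty) then wt (fun _ => p) (E \ T a) F0 else 0) *
          (1 - (1 - p) ^ (T a).card) := by
      intro F0 hF0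
      rw [mem_powerset] at hF0
      have hw := wt_nonneg (p := fun _ : α => p) (fun _ => h0) (fun _ => h1) (E \ T a) F0
      by_cases hc : ∀ i ∈ I, (F0 ∩ T i).Nonempty
      · rw [if_pos hc]
        apply mul_le_mul_of_nonneg_left _ hw
        refine (pr_mono (fun _ => h0) (fun _ => h1) (Q := fun B => B.Nonempty) ?_).trans
          (pr_ne p h0 h1 (T a))
        intro A hA h
        obtain ⟨x, hx⟩ := h a (mem_insert_self a I)
        rw [mem_inter, mem_union] at hx
        rcases hx.1 with h2 | h2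
        · exact absurd hx.2 (mem_sdiff.1 (hF0 h2)).2
        · exact ⟨x, h2⟩
      · rw [if_neg hc, zero_mul]
        have h2 : pr (fun _ => p) (T a)
            (fun A => ∀ i ∈ insert a I, ((F0 ∪ A) ∩ T i).Nonempty) ≤ 0 := by
          refine (pr_mono (fun _ => h0) (fun _ => h1) (Q := fun _ => False) ?_).trans
            (le_of_eq (pr_false _))
          intro A hA h
          apply hc
          intro i hi
          obtain ⟨x, hx⟩ := h i (mem_insert_of_mem hi)
          rw [mem_inter, mem_union] at hx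
          rcases hx.1 with h2 | h2
          · exact ⟨x, mem_inter.2 ⟨h2, hx.2⟩⟩
          · exact absurd (hA h2) (disjoint_left.1 (hda i hi) hx.2)
        exact mul_nonpos_of_nonneg_of_nonpos hw h2
    refine (sum_le_sum hterm).trans ?_
    rw [← sum_mul, mul_comm]
    apply mul_le_mul_of_nonneg_left _ hρ
    rw [pr_if] at hih
    exact hih

end gen

section graph

variable (V : Type) [Fintype V] [DecidableEq V] (p : ℝ) (h0 : 0 ≤ p) (h1 : p ≤ 1)

/-- the pairs from `x` to the outside of `A` -/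
def Tset (A : Finset V) (x : V) : Finset (Sym2 V) := (univ \ A).image (fun y => s(x, y))

include h0 h1

theorem iso_bound (A : Finset V) :
    P (V := V) p (fun F => ∀ x, Pool.Agent.Run7.h202.RP.dg F x ≠ 0) ≤
      (A.card : ℝ) ^ 2 * p + (1 - (1 - p) ^ (Fintype.card V - A.card)) ^ A.card := by
  classical
  unfold P
  refine (pr_mono (fun _ => h0) (fun _ => h1) (Q := fun F =>
    (∃ i ∈ A ×ˢ A, s(i.1, i.2) ∈ F ∧ i.1 ≠ i.2) ∨ ∀ x ∈ A, (F ∩ Tset V A x).Nonempty) ?_).trans
    ((pr_or (fun _ => h0) (fun _ => h1) _ _ _).trans (add_le_add ?_ ?_))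
  · intro F hF h
    by_contra hc
    push Not at hc
    obtain ⟨hc1, x, hx, hc2⟩ := hc
    apply h x
    unfold Pool.Agent.Run7.h202.RP.dg
    rw [card_eq_zero, eq_empty_iff_forall_notMem]
    intro y hy
    rw [mem_nb, adj_pairs hF] at hy
    have hxy : x ≠ y := (mem_pairs x y).1 (hF hy.2)
    by_cases hyA : y ∈ A
    · exact hxy (hc1 (x, y) (mem_product.2 ⟨hx, hyA⟩) hy.2)
    · have h3 : s(x, y) ∈ F ∩ Tset V A x := by
        rw [mem_inter]
        exact ⟨hy.2, mem_image.2 ⟨y, mem_sdiff.2 ⟨mem_univ _, hyA⟩, rfl⟩⟩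
      rw [hc2] at h3
      exact absurd h3 (notMem_empty _)
  · refine (pr_ex (fun _ => h0) (fun _ => h1) _ _ _).trans ?_
    have hterm : ∀ i ∈ A ×ˢ A, pr (fun _ => p) (pairs V) (fun F => s(i.1, i.2) ∈ F ∧ i.1 ≠ i.2) ≤
        p := by
      intro i _
      by_cases hi : i.1 = i.2
      · refine (pr_mono (fun _ => h0) (fun _ => h1) (Q := fun _ => False)
          (fun F _ h => h.2 hi)).trans ?_
        rw [pr_false]
        exact h0
      · have h2 := pr_sub p h0 h1 (pairs V) {s(i.1, i.2)} (by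
          rw [singleton_subset_iff, mem_pairs]
          exact hi)
        rw [card_singleton, pow_one] at h2
        refine (pr_mono (fun _ => h0) (fun _ => h1) (fun F _ h => ?_)).trans h2
        rw [singleton_subset_iff]
        exact h.1
    refine (sum_le_sum hterm).trans (le_of_eq ?_)
    rw [sum_const, card_product, nsmul_eq_mul]
    push_cast
    ring
  · have hcard : ∀ x ∈ A, (Tset V A x).card = Fintype.card V - A.card := by
      intro x _
      unfold Tset
      rw [card_image_of_injective, card_sdiff_of_subset (subset_univ _), card_univ]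
      intro a b h
      exact Sym2.congr_right.1 h
    refine (pr_all p h0 h1 (Tset V A) A (pairs V) ?_ ?_).trans (le_of_eq ?_)
    · intro x hx e he
      obtain ⟨y, hy, rfl⟩ := mem_image.1 he
      rw [mem_pairs]
      rintro rfl
      exact (mem_sdiff.1 hy).2 hx
    · intro x hx x' hx' hne
      rw [disjoint_left]
      intro e he he'
      obtain ⟨y, hy, rfl⟩ := mem_image.1 he
      obtain ⟨z, hz, h⟩ := mem_image.1 he'
      rcases Sym2.eq_iff.1 h with ⟨h2, -⟩ | ⟨h2, -⟩
      · exact hne h2.symm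
      · rw [h2] at hx'
        exact (mem_sdiff.1 hy).2 hx'
    · rw [prod_congr rfl (fun x hx => by rw [hcard x hx]), prod_const]

end graph

theorem t_ISO : Pool.Agent.Run7.h202.RP.ISO := by
  have hlim : ∀ᶠ n : ℕ in atTop, Real.log n ≤ (1 / 4 : ℝ) * (n : ℝ) ^ (1 / 16 : ℝ) := by
    have h1 := (Asymptotics.isLittleO_iff.1 (isLittleO_log_rpow_atTop
      (show (0 : ℝ) < 1 / 16 by norm_num))) (show (0 : ℝ) < 1 / 4 by norm_num)
    have h2 := tendsto_natCast_atTop_atTop.eventually h1
    filter_upwards [h2] with n hn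
    have h3 := le_trans (le_abs_self _) hn
    have h4 : ‖(n : ℝ) ^ (1 / 16 : ℝ)‖ = (n : ℝ) ^ (1 / 16 : ℝ) :=
      Real.norm_of_nonneg (by positivity)
    rw [h4] at h3
    exact h3
  filter_upwards [hlim, eventually_ge_atTop 150] with n hn hn3 V _ _ hV
  have hn0 : (0 : ℝ) < n := by exact_mod_cast (by omega : 0 < n)
  have hn1 : (1 : ℝ) ≤ n := by exact_mod_cast (by omega : 1 ≤ n)
  set L : ℝ := Real.log n with hL
  have hL5 : 5 ≤ L := by
    rw [hL, Real.le_log_iff_exp_le hn0]
    have h5 : Real.exp 5 ≤ 150 := by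
      have h6 : Real.exp 5 = Real.exp 1 ^ 5 := by
        rw [← Real.exp_nat_mul]
        norm_num
      rw [h6]
      have h7 := Real.exp_one_lt_d9
      calc Real.exp 1 ^ 5 ≤ (2.7182818286 : ℝ) ^ 5 := by gcongr
        _ ≤ 150 := by norm_num
    exact h5.trans (by exact_mod_cast hn3)
  have hle16 : (n : ℝ) ^ (1 / 16 : ℝ) ≤ n := by
    calc (n : ℝ) ^ (1 / 16 : ℝ) ≤ (n : ℝ) ^ (1 : ℝ) :=
          Real.rpow_le_rpow_of_exponent_le hn1 (by norm_num)
      _ = n := Real.rpow_one _
  set p : ℝ := L / (4 * n) with hp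
  have hp0 : 0 ≤ p := by positivity
  have hp5 : p ≤ 1 / 5 := by
    rw [hp, div_le_iff₀ (by positivity)]
    linarith
  have hp1 : p ≤ 1 := by linarith
  -- the size of the set
  set x : ℝ := (n : ℝ) ^ (3 / 8 : ℝ) with hx
  have hx0 : 0 < x := Real.rpow_pos_of_pos hn0 _
  have hx2 : 2 ≤ x := by
    have h6 : (n : ℝ) ^ (3 / 8 : ℝ) = ((n : ℝ) ^ (1 / 16 : ℝ)) ^ (6 : ℝ) := by
      rw [← Real.rpow_mul hn0.le]
      norm_num
    have h7 : (20 : ℝ) ≤ (n : ℝ) ^ (1 / 16 : ℝ) := by linarith
    rw [hx, h6]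
    calc (2 : ℝ) ≤ ((n : ℝ) ^ (1 / 16 : ℝ)) ^ (1 : ℝ) := by
          rw [Real.rpow_one]
          linarith
      _ ≤ ((n : ℝ) ^ (1 / 16 : ℝ)) ^ (6 : ℝ) :=
          Real.rpow_le_rpow_of_exponent_le (by linarith) (by norm_num)
  set k : ℕ := ⌊x⌋₊ with hk
  have hkx : (k : ℝ) ≤ x := Nat.floor_le hx0.le
  have hkx2 : x / 2 ≤ (k : ℝ) := by
    have := Nat.lt_floor_add_one x
    rw [← hk] at this
    linarith
  have hxn : x ≤ n := by
    calc x ≤ (n : ℝ) ^ (1 : ℝ) := Real.rpow_le_rpow_of_exponent_le hn1 (by norm_num)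
      _ = n := Real.rpow_one _
  have hkn : k ≤ n := by exact_mod_cast hkx.trans hxn
  obtain ⟨A, -, hA⟩ := exists_subset_card_eq (s := (univ : Finset V)) (n := k)
    (by rw [card_univ, hV]; exact hkn)
  refine (iso_bound V p hp0 hp1 A).trans ?_
  rw [hA, hV]
  -- the target
  set y : ℝ := 1 / (n : ℝ) ^ (1 / 6 : ℝ) with hy
  have hy0 : 0 < y := by positivity
  have hyexp : y = Real.exp (-(L / 6)) := by
    rw [hy, Real.exp_neg, ← Real.exp_log (Real.rpow_pos_of_pos hn0 (1 / 6 : ℝ)),
      Real.log_rpow hn0, one_div]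
    congr 2
    rw [hL]
    ring
  have hrexp : ∀ r : ℝ, (n : ℝ) ^ r = Real.exp (r * L) := by
    intro r
    rw [Real.rpow_def_of_pos hn0, mul_comm]
  -- first term
  have hfirst : (k : ℝ) ^ 2 * p ≤ y / 2 := by
    have h6 : (k : ℝ) ^ 2 ≤ x ^ 2 := by gcongr
    have h7 : x ^ 2 / n = Real.exp (-(L / 4)) := by
      have h8 : (n : ℝ) = Real.exp L := (Real.exp_log hn0).symm
      have h9 : x ^ 2 = Real.exp (3 / 4 * L) := by
        rw [hx, hrexp, ← Real.exp_nat_mul]
        congr 1
        push_cast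
        ring
      rw [h9]
      nth_rewrite 1 [h8]
      rw [← Real.exp_sub]
      congr 1
      ring
    have h10 : (k : ℝ) ^ 2 * p ≤ Real.exp (-(L / 4)) * (L / 4) := by
      calc (k : ℝ) ^ 2 * p ≤ x ^ 2 * p := by gcongr
        _ = x ^ 2 / n * (L / 4) := by
            rw [hp]
            field_simp
        _ = _ := by rw [h7]
    have h11 : L / 4 ≤ Real.exp (L / 12) / 2 := by
      have h12 : L ≤ 1 / 4 * Real.exp (L / 16) := by
        have := hn
        rw [hrexp] at this
        convert this using 3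
        ring
      have h13 : Real.exp (L / 16) ≤ Real.exp (L / 12) := by
        apply Real.exp_le_exp.2
        linarith
      have h14 := Real.exp_pos (L / 12)
      linarith
    calc (k : ℝ) ^ 2 * p ≤ Real.exp (-(L / 4)) * (L / 4) := h10
      _ ≤ Real.exp (-(L / 4)) * (Real.exp (L / 12) / 2) := by gcongr
      _ = Real.exp (-(L / 4) + L / 12) / 2 := by rw [Real.exp_add]; ring
      _ = y / 2 := by
          rw [hyexp]
          congr 2
          ring
  -- second term
  have hsecond : (1 - (1 - p) ^ (n - k)) ^ k ≤ y / 2 := by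
    have h1p : 0 < 1 - p := by linarith
    have h6 : (1 - p) ^ n ≤ (1 - p) ^ (n - k) :=
      pow_le_pow_of_le_one h1p.le (by linarith) (Nat.sub_le n k)
    have h7 : Real.exp (-(5 / 16 * L)) ≤ (1 - p) ^ n := by
      have h8 : Real.exp (-(5 / 4 * p)) ≤ 1 - p := by
        rw [← Real.le_log_iff_exp_le h1p]
        have h9 := Real.one_sub_inv_le_log_of_pos h1p
        have h10 : -(5 / 4 * p) ≤ 1 - (1 - p)⁻¹ := by
          have h11 : (1 - p)⁻¹ ≤ 1 + 5 / 4 * p := by
            rw [inv_le_iff_one_le_mul₀ h1p]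
            nlinarith
          linarith
        linarith
      calc Real.exp (-(5 / 16 * L)) = Real.exp (-(5 / 4 * p)) ^ n := by
            rw [← Real.exp_nat_mul]
            congr 1
            rw [hp]
            field_simp
            ring
        _ ≤ (1 - p) ^ n := by gcongr
    have hle1 : (1 - p) ^ (n - k) ≤ 1 := pow_le_one₀ h1p.le (by linarith)
    have h12 : 1 - (1 - p) ^ (n - k) ≤ Real.exp (-Real.exp (-(5 / 16 * L))) := by
      have := Real.add_one_le_exp (-Real.exp (-(5 / 16 * L)))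
      linarith
    have h13 : (1 - (1 - p) ^ (n - k)) ^ k ≤ Real.exp (-Real.exp (-(5 / 16 * L))) ^ k :=
      pow_le_pow_left₀ (by linarith) h12 k
    refine h13.trans ?_
    rw [← Real.exp_nat_mul]
    have h14 : x / 2 * Real.exp (-(5 / 16 * L)) = Real.exp (L / 16) / 2 := by
      rw [hx, hrexp, div_mul_eq_mul_div, ← Real.exp_add]
      congr 2
      ring
    have h15 : Real.exp (L / 16) / 2 ≤ (k : ℝ) * Real.exp (-(5 / 16 * L)) := by
      rw [← h14]
      gcongr
    have h16 : L ≤ 1 / 4 * Real.exp (L / 16) := by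
      have := hn
      rw [hrexp] at this
      convert this using 3
      ring
    have h17 : Real.exp (-1) ≤ 1 / 2 := by
      rw [Real.exp_neg, inv_le_comm₀ (Real.exp_pos 1) (by norm_num)]
      have := Real.exp_one_gt_d9
      norm_num
      linarith
    calc Real.exp ((k : ℝ) * -Real.exp (-(5 / 16 * L))) ≤ Real.exp (-(L / 6) + (-1)) := by
          apply Real.exp_le_exp.2
          rw [mul_neg]
          linarith
      _ = Real.exp (-(L / 6)) * Real.exp (-1) := Real.exp_add _ _
      _ ≤ y * (1 / 2) := by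
          rw [hyexp]
          gcongr
      _ = y / 2 := by ring
  linarith

end Pool.Agent.Run7.h404.RP
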